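import Pool.Agent.Helper35.HC.StC
import Pool.Agent.Helper98.PI2.M_GH

set_option autoImplicit false

/-!
Project HC (MP_925021_gt), module JHW: jets of `w = ∂_t u` for a graphical solution.
-/

namespace Helper34.HC

open Helper35.HC Helper35.HSF Helper35.MS Helper35.PI Helper35.PI2
open Helper2.PI Helper98.PI2
open scoped ContDiff Manifold Topology ENNReal BigOperators
open MeasureTheory Set Filter

private lemma dsum {n N : ℕ} (W : Fin n → Fin n → EE N) :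
    ∑ a, ∑ b, (if a = b then (1 : ℝ) else 0) • W a b = ∑ a, W a a := by
  refine Finset.sum_congr rfl fun a _ => ?_
  rw [Finset.sum_eq_single a]
  · simp
  · intro b _ hb
    rw [if_neg (Ne.symm hb), zero_smul]
  · intro h
    exact absurd (Finset.mem_univ a) h

/-- `D_v D_v D_a D_b u = D_a D_b D_v D_v u` -/
private lemma comm4 {E V : Type*} [NormedAddCommGroup E] [NormedSpace ℝ E]
    [NormedAddCommGroup V] [NormedSpace ℝ V] {u : E → V} {z₀ : E} (hs : ContDiffAt ℝ ∞ u z₀)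
    (v a b : E) : DD v (DD v (DD a (DD b u))) z₀ = DD a (DD b (DD v (DD v u))) z₀ := by
  have s1 : ∀ v, ContDiffAt ℝ ∞ (DD v u) z₀ := fun v => DD_inf hs v
  have s2 : ∀ v w, ContDiffAt ℝ ∞ (DD v (DD w u)) z₀ := fun v w => DD_inf (s1 w) v
  have e1 : DD v (DD a (DD b u)) =ᶠ[𝓝 z₀] DD a (DD v (DD b u)) :=
    DD_comm_ev (two_of (s1 b)) v a
  rw [DD_congr e1 v, DD_comm (two_of (s2 v b)) v a]
  have e2 : DD v (DD b u) =ᶠ[𝓝 z₀] DD b (DD v u) := DD_comm_ev (two_of hs) v b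
  have e3 : DD v (DD v (DD b u)) =ᶠ[𝓝 z₀] DD b (DD v (DD v u)) :=
    (DD_ev e2 v).trans (DD_comm_ev (two_of (s1 v)) v b)
  exact DD_congr e3 a

private lemma fin_sum {n N : ℕ} (A : Fin n → Fin n → EE N) (H : Fin n → EE N) (i : Fin n)
    (hA : SymV A) :
    ∑ a, ∑ b, (-((inner ℝ (A i a) (H b) : ℝ) + inner ℝ (H a) (A i b))) • A a b =
      (-2 : ℝ) • ∑ a, ∑ b, (inner ℝ (A a i) (H b) : ℝ) • A a b := by
  have h1 : ∑ a, ∑ b, (inner ℝ (H a) (A i b) : ℝ) • A a b =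
      ∑ a, ∑ b, (inner ℝ (A a i) (H b) : ℝ) • A a b := by
    rw [Finset.sum_comm]
    refine Finset.sum_congr rfl fun a _ => Finset.sum_congr rfl fun b _ => ?_
    rw [hA a b, hA a i, real_inner_comm]
  have h2 : ∑ a, ∑ b, (inner ℝ (A i a) (H b) : ℝ) • A a b =
      ∑ a, ∑ b, (inner ℝ (A a i) (H b) : ℝ) • A a b := by
    refine Finset.sum_congr rfl fun a _ => Finset.sum_congr rfl fun b _ => ?_
    rw [hA a i]
  have h3 : ∑ a, ∑ b, (-((inner ℝ (A i a) (H b) : ℝ) + inner ℝ (H a) (A i b))) • A a b =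
      -(∑ a, ∑ b, (inner ℝ (A i a) (H b) : ℝ) • A a b +
        ∑ a, ∑ b, (inner ℝ (H a) (A i b) : ℝ) • A a b) := by
    rw [← Finset.sum_add_distrib, ← Finset.sum_neg_distrib]
    refine Finset.sum_congr rfl fun a _ => ?_
    rw [← Finset.sum_add_distrib, ← Finset.sum_neg_distrib]
    refine Finset.sum_congr rfl fun b _ => ?_
    rw [neg_smul, add_smul]
  rw [h3, h1, h2, neg_smul, two_smul]

theorem hJHW (hGIT : StGIT) (hG0 : StG0) (hG1 : StG1) : StJHW := by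
  intro n N x₀ L u t₀ hu A T hA hT
  set z₀ : EE n × ℝ := (0, t₀) with hz₀
  have hs : ContDiffAt ℝ ∞ u z₀ := hu.smooth
  let e : Fin n → EE n × ℝ := fun k => (ee k, 0)
  let τ : EE n × ℝ := (0, 1)
  obtain ⟨symA, symT, -, -⟩ := hG1 n N x₀ L u t₀ hu
  rw [← hA] at symA
  rw [← hT] at symT
  -- smoothness
  have s1 : ∀ v, ContDiffAt ℝ ∞ (DD v u) z₀ := fun v => DD_inf hs v
  have s2 : ∀ v w, ContDiffAt ℝ ∞ (DD v (DD w u)) z₀ := fun v w => DD_inf (s1 w) v
  -- the equation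
  have hpde : DD τ u =ᶠ[𝓝 z₀] fun z => ∑ a, ∑ b, GIf x₀ L u a b z • DD (e a) (DD (e b) u) z := by
    filter_upwards [hu.pde] with z hz
    exact hz
  have v0 : DD τ u z₀ = Hv A := by
    rw [hpde.self_of_nhds]
    change ∑ a, ∑ b, GIf x₀ L u a b z₀ • DD (e a) (DD (e b) u) z₀ = Hv A
    have h1 : ∀ a b : Fin n, GIf x₀ L u a b z₀ • DD (e a) (DD (e b) u) z₀
        = (if a = b then (1 : ℝ) else 0) • A a b := by
      intro a b
      rw [show GIf x₀ L u a b z₀ = (if a = b then 1 else 0) from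
        (hG0 n N x₀ L u t₀ hu a b).2.1, hA]
      rfl
    rw [Finset.sum_congr rfl fun a _ => Finset.sum_congr rfl fun b _ => h1 a b]
    rw [dsum A]
    rfl
  have d1 : ∀ a b : Fin n, DifferentiableAt ℝ (GIf x₀ L u a b) z₀ := fun a b =>
    diff_of (hG0 n N x₀ L u t₀ hu a b).1
  have d2 : ∀ a b : Fin n, DifferentiableAt ℝ (DD (e a) (DD (e b) u)) z₀ := fun a b =>
    diff_of (s2 _ _)
  have v1 : ∀ m, DD (e m) (DD τ u) z₀ = et T m := by
    intro m
    rw [DD_congr hpde (e m)]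
    rw [DD_sum Finset.univ (fun a z => ∑ b, GIf x₀ L u a b z • DD (e a) (DD (e b) u) z)
      (fun a _ => DifferentiableAt.fun_sum fun b _ => (d1 a b).smul (d2 a b)) (e m)]
    have h1 : ∀ a : Fin n, DD (e m) (fun z => ∑ b, GIf x₀ L u a b z • DD (e a) (DD (e b) u) z) z₀
        = ∑ b, (if a = b then (1 : ℝ) else 0) • T m a b := by
      intro a
      rw [DD_sum Finset.univ (fun b z => GIf x₀ L u a b z • DD (e a) (DD (e b) u) z)
        (fun b _ => (d1 a b).smul (d2 a b)) (e m)]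
      refine Finset.sum_congr rfl fun b _ => ?_
      obtain ⟨-, q2, q3, -, -⟩ := hG0 n N x₀ L u t₀ hu a b
      rw [DD_smul (GIf x₀ L u a b) (DD (e a) (DD (e b) u)) (d1 a b) (d2 a b) (e m)]
      rw [show GIf x₀ L u a b z₀ = (if a = b then 1 else 0) from q2,
        show DD (e m) (GIf x₀ L u a b) z₀ = 0 from q3 m, zero_smul, add_zero, hT]
      rfl
    rw [Finset.sum_congr rfl fun a _ => h1 a, dsum (T m)]
    unfold et
    refine Finset.sum_congr rfl fun i _ => ?_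
    rw [symT.1 m i i, symT.2 i m i]
  -- orthogonality
  have p0 : ∀ᶠ z in 𝓝 z₀, ∀ w : EE n, (inner ℝ (DD τ u z) (L w) : ℝ) = 0 := by
    filter_upwards [diff_ev hs, hu.perp.eventually_nhds] with z h1 h2 w
    exact DD_perp (L w) h1 (h2.mono fun z' hz' => hz' w) τ
  have p1 : ∀ i, ∀ᶠ z in 𝓝 z₀, ∀ w : EE n, (inner ℝ (DD (e i) (DD τ u) z) (L w) : ℝ) = 0 := by
    intro i
    filter_upwards [diff_ev (s1 τ), p0.eventually_nhds] with z h1 h2 w
    exact DD_perp (L w) h1 (h2.mono fun z' hz' => hz' w) (e i)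
  refine ⟨s1 τ, v0, p0, fun i => ⟨s2 (e i) τ, v1 i, p1 i, ?_⟩⟩
  -- the heat operator
  have hh : jh (fun z => jg (jt u) z i) z₀ = DD τ (DD (e i) (DD τ u)) z₀ -
      ∑ k, DD (e k) (DD (e k) (DD (e i) (DD τ u))) z₀ := rfl
  rw [hh]
  have h1 : DD τ (DD (e i) (DD τ u)) z₀ =
      DD (e i) (DD τ (fun z => ∑ a, ∑ b, GIf x₀ L u a b z • DD (e a) (DD (e b) u) z)) z₀ := by
    rw [DD_comm (two_of (s1 τ)) τ (e i)]
    exact DD_congr (DD_ev hpde τ) (e i)
  have c1 : ∀ a b : Fin n, ContDiffAt ℝ 2 (GIf x₀ L u a b) z₀ := fun a b =>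
    two_of (hG0 n N x₀ L u t₀ hu a b).1
  have c2 : ∀ a b : Fin n, ContDiffAt ℝ 2 (DD (e a) (DD (e b) u)) z₀ := fun a b =>
    two_of (s2 _ _)
  have h2 : DD (e i) (DD τ (fun z => ∑ a, ∑ b, GIf x₀ L u a b z • DD (e a) (DD (e b) u) z)) z₀ =
      ∑ a, ∑ b, ((if a = b then (1 : ℝ) else 0) • DD (e i) (DD τ (DD (e a) (DD (e b) u))) z₀ +
        (-((inner ℝ (A i a) (et T b) : ℝ) + inner ℝ (et T a) (A i b))) • A a b) := by
    rw [DD_sum2 Finset.univ (fun a z => ∑ b, GIf x₀ L u a b z • DD (e a) (DD (e b) u) z)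
      (fun a _ => ContDiffAt.sum fun b _ => (c1 a b).smul (c2 a b)) (e i) τ]
    refine Finset.sum_congr rfl fun a _ => ?_
    rw [DD_sum2 Finset.univ (fun b z => GIf x₀ L u a b z • DD (e a) (DD (e b) u) z)
      (fun b _ => (c1 a b).smul (c2 a b)) (e i) τ]
    refine Finset.sum_congr rfl fun b _ => ?_
    obtain ⟨-, q2, q3, q4, -⟩ := hG0 n N x₀ L u t₀ hu a b
    rw [DD_smul2 (GIf x₀ L u a b) (DD (e a) (DD (e b) u)) (c1 a b) (c2 a b) (e i) τ (q3 i) q4]
    rw [show GIf x₀ L u a b z₀ = (if a = b then 1 else 0) from q2,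
      show DD (e i) (DD τ (GIf x₀ L u a b)) z₀ =
        -((inner ℝ (A i a) (et T b) : ℝ) + inner ℝ (et T a) (A i b)) from
        hGIT n N x₀ L u t₀ hu A T hA hT a b i,
      show DD (e a) (DD (e b) u) z₀ = A a b by rw [hA]; rfl]
  have h3 : ∑ a, ∑ b, (if a = b then (1 : ℝ) else 0) • DD (e i) (DD τ (DD (e a) (DD (e b) u))) z₀ =
      ∑ k, DD (e k) (DD (e k) (DD (e i) (DD τ u))) z₀ := by
    rw [dsum (fun a b => DD (e i) (DD τ (DD (e a) (DD (e b) u))) z₀)]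
    refine Finset.sum_congr rfl fun k _ => ?_
    exact (comm4 hs (e k) (e i) τ).symm
  rw [h1, h2]
  simp only [Finset.sum_add_distrib]
  rw [h3, fin_sum A (fun b => et T b) i symA]
  abel

end Helper34.HC
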