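import Pool.Agent.Helper35.HC.StE

set_option autoImplicit false

/-!
Project HC (MP_925021_gt), module STY: lifts of great circles stay in the interior of the good set.
-/

namespace Helper34.HC

open Helper35.HC Helper35.HSF Helper35.MS Helper35.PI Helper35.PI2 Helper32.CL
open scoped ContDiff Manifold Topology ENNReal BigOperators
open MeasureTheory Set Filter

private theorem speed {K : ℕ} (p ξ : EE K) (hp : ‖p‖ ≤ 1) (hξ : ‖ξ‖ = 1)
    (h : (inner ℝ ξ p : ℝ) = 0) (a b : ℝ) :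
    ‖(Real.cos a • p + Real.sin a • ξ) - (Real.cos b • p + Real.sin b • ξ)‖ ≤ |a - b| := by
  have h1 : (Real.cos a • p + Real.sin a • ξ) - (Real.cos b • p + Real.sin b • ξ) =
      (Real.cos a - Real.cos b) • p + (Real.sin a - Real.sin b) • ξ := by
    rw [sub_smul, sub_smul]
    abel
  have h2 : ‖(Real.cos a - Real.cos b) • p + (Real.sin a - Real.sin b) • ξ‖ ^ 2 =
      (Real.cos a - Real.cos b) ^ 2 * ‖p‖ ^ 2 + (Real.sin a - Real.sin b) ^ 2 := by
    rw [norm_add_sq_real, inner_smul_left, inner_smul_right, real_inner_comm, h, norm_smul,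
      norm_smul, hξ, mul_pow, mul_pow, Real.norm_eq_abs, Real.norm_eq_abs, sq_abs, sq_abs]
    simp
  have hp2 : ‖p‖ ^ 2 ≤ 1 := pow_le_one₀ (norm_nonneg _) hp
  have h3 : (Real.cos a - Real.cos b) ^ 2 * ‖p‖ ^ 2 ≤ (Real.cos a - Real.cos b) ^ 2 :=
    mul_le_of_le_one_right (sq_nonneg _) hp2
  have h4 : (Real.cos a - Real.cos b) ^ 2 + (Real.sin a - Real.sin b) ^ 2 =
      2 - 2 * Real.cos (a - b) := by
    rw [Real.cos_sub]
    have e1 := Real.sin_sq_add_cos_sq a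
    have e2 := Real.sin_sq_add_cos_sq b
    linear_combination e1 + e2
  have h5 := Real.one_sub_sq_div_two_le_cos (x := a - b)
  rw [h1]
  refine abs_le_of_sq_le_sq' ?_ (abs_nonneg _) |>.2
  rw [h2, sq_abs]
  linarith

private theorem eta_choice (B l η : ℝ) (hB : 0 ≤ B) (hl : 0 < l) (hη : 0 < η) :
    ∃ η' : ℝ, 0 < η' ∧ η' < l / 2 ∧ B + η' ≤ (2 * B / l + η) * (l / 2 - η') := by
  have h0 : 0 ≤ 2 * B / l := by positivity
  have h1 : 0 < 1 + 2 * B / l + η := by linarith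
  refine ⟨η * l / 2 / (1 + 2 * B / l + η), by positivity, ?_, ?_⟩
  · rw [div_lt_iff₀ h1]
    have h2 : l / 2 * (1 + 2 * B / l + η) = l / 2 * (1 + 2 * B / l) + η * l / 2 := by ring
    have h3 : 0 < l / 2 * (1 + 2 * B / l) := by positivity
    linarith
  · have h2 : η * l / 2 / (1 + 2 * B / l + η) * (1 + 2 * B / l + η) = η * l / 2 :=
      div_mul_cancel₀ _ h1.ne'
    revert h2
    generalize η * l / 2 / (1 + 2 * B / l + η) = x
    intro h2
    have h3 : 2 * B / l * (l / 2) = B := by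
      field_simp
    have h4 : (2 * B / l + η) * (l / 2 - x) =
        2 * B / l * (l / 2) + η * l / 2 - x * (1 + 2 * B / l + η) + x := by ring
    rw [h4, h3, h2]
    linarith

private theorem growth (hLPG : StLPG) (hDIN : StDIN) {n N : ℕ} {M : Type} [TopologicalSpace M]
    [ChartedSpace (EE n) M] [IsManifold (𝓡 n) ∞ M] {J : Set ℝ} {F : M → ℝ → EE N}
    (hF : IsImmJ (n := n) J F) {t : ℝ} (ht : t ∈ J) {l : ℝ} (hl : 0 < l)
    {V : Type} [NormedAddCommGroup V] [NormedSpace ℝ V] (u : M → V) (hu : Continuous u)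
    {W : Type} [NormedAddCommGroup W] [NormedSpace ℝ W] (P : M → W) (B : ℝ) (hB : 0 ≤ B)
    (s : ℝ) (hs : 0 ≤ s) (f : ℝ → M) (hf : ContinuousOn f (Icc 0 s))
    (h1 : ∀ r ∈ Icc 0 s, DifferentiableAt ℝ (fun z => u ((chartAt (EE n) (f r)).symm z))
      (chartAt (EE n) (f r) (f r)))
    (h2 : ∀ r ∈ Icc 0 s, DifferentiableAt ℝ (fun z => P ((chartAt (EE n) (f r)).symm z))
      (chartAt (EE n) (f r) (f r)))
    (h3 : ∀ r ∈ Icc 0 s, ∀ h, ‖cd n u (f r) h‖ ≤ B * ‖cd n (fun p => F p t) (f r) h‖)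
    (h4 : ∀ r ∈ Icc 0 s, ∀ h,
      l / 2 * ‖cd n (fun p => F p t) (f r) h‖ ≤ ‖cd n P (f r) h‖)
    (h5 : ∀ r ∈ Icc 0 s, ∀ r' ∈ Icc 0 s, ‖P (f r') - P (f r)‖ ≤ |r' - r|) :
    ‖u (f s) - u (f 0)‖ ≤ 2 * B / l * s := by
  have key := hDIN V (fun r => u (f r)) 0 s (2 * B / l) hs (by positivity)
    (hu.comp_continuousOn hf) ?_
  · simpa using key
  intro r hr η hη
  have hrI : r ∈ Icc (0 : ℝ) s := ⟨hr.1, hr.2.le⟩
  obtain ⟨η', e1, e2, e3⟩ := eta_choice B l η hB hl hη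
  have g1 := (hLPG n N M J F hF t ht V u (f r) (h1 r hrI) B η' hB e1).1 (h3 r hrI)
  have g2 := (hLPG n N M J F hF t ht W P (f r) (h2 r hrI) (l / 2) η' (by positivity) e1).2
    (h4 r hrI)
  have hIoo : Ioo r s ∈ 𝓝[>] r := Ioo_mem_nhdsGT hr.2
  have hle : 𝓝[>] r ≤ 𝓝[Icc 0 s] r := by
    refine nhdsWithin_le_iff.2 ?_
    filter_upwards [hIoo] with x hx
    exact ⟨hr.1.trans hx.1.le, hx.2.le⟩
  have htend : Tendsto f (𝓝[>] r) (𝓝 (f r)) := (hf r hrI).mono_left hle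
  filter_upwards [htend.eventually g1, htend.eventually g2, hIoo] with x k1 k2 k3
  have hxI : x ∈ Icc (0 : ℝ) s := ⟨hr.1.trans k3.1.le, k3.2.le⟩
  have k4 := h5 r hrI x hxI
  rw [abs_of_pos (by linarith [k3.1])] at k4
  have hl2 : 0 < l / 2 - η' := by linarith
  have k5 : (l / 2 - η') * ‖F (f x) t - F (f r) t‖ ≤ x - r := k2.trans k4
  have k6 : (l / 2 - η') * ‖u (f x) - u (f r)‖ ≤
      (l / 2 - η') * ((B + η') * ‖F (f x) t - F (f r) t‖) :=
    mul_le_mul_of_nonneg_left k1 hl2.le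
  have k7 : (B + η') * ((l / 2 - η') * ‖F (f x) t - F (f r) t‖) ≤ (B + η') * (x - r) :=
    mul_le_mul_of_nonneg_left k5 (by linarith)
  have k8 : (B + η') * (x - r) ≤ (2 * B / l + η) * (l / 2 - η') * (x - r) :=
    mul_le_mul_of_nonneg_right e3 (by linarith [k3.1])
  refine le_of_mul_le_mul_left ?_ hl2
  calc (l / 2 - η') * ‖u (f x) - u (f r)‖
      ≤ (l / 2 - η') * ((B + η') * ‖F (f x) t - F (f r) t‖) := k6
    _ = (B + η') * ((l / 2 - η') * ‖F (f x) t - F (f r) t‖) := by ring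
    _ ≤ (2 * B / l + η) * (l / 2 - η') * (x - r) := k7.trans k8
    _ = (l / 2 - η') * ((2 * B / l + η) * (x - r)) := by ring

private theorem numbers (N ε l δ s : ℝ) (hN : 1 ≤ N) (hε : 0 ≤ ε) (hl : 0 < l) (hδ : 0 < δ)
    (hδ1 : δ ≤ 1 / 20) (h : 36 * N * ε ≤ δ ^ 2) (hs : s ≤ Real.pi) :
    2 * (ε * l ^ 2) / l * s < δ * l ∧ 2 * (4 * ε) / l * s < δ / l ∧
      2 * (4 * N * ε * l) / l * s < δ ^ 2 := by
  have hpi := Real.pi_lt_d2
  have hs1 : s ≤ 3.15 := by linarith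
  have hNε : ε ≤ N * ε := le_mul_of_one_le_left hε hN
  have hδ2 : δ ^ 2 ≤ δ / 20 := by
    have : δ * δ ≤ δ * (1 / 20) := mul_le_mul_of_nonneg_left hδ1 hδ.le
    linarith [show δ ^ 2 = δ * δ by ring]
  have hδ3 : 0 < δ ^ 2 := by positivity
  have hA : ε * s ≤ ε * 3.15 := mul_le_mul_of_nonneg_left hs1 hε
  have hB : N * ε * s ≤ N * ε * 3.15 := mul_le_mul_of_nonneg_left hs1 (by linarith)
  have hC : 36 * (N * ε) ≤ δ ^ 2 := by linarith [show 36 * N * ε = 36 * (N * ε) by ring]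
  refine ⟨?_, ?_, ?_⟩
  · have e1 : 2 * (ε * l ^ 2) / l * s = 2 * (ε * s) * l := by
      field_simp
    rw [e1]
    refine mul_lt_mul_of_pos_right ?_ hl
    norm_num at hA
    linarith
  · have e1 : 2 * (4 * ε) / l * s = 8 * (ε * s) / l := by
      field_simp
      ring
    rw [e1]
    refine (div_lt_div_iff_of_pos_right hl).2 ?_
    norm_num at hA
    linarith
  · have e1 : 2 * (4 * N * ε * l) / l * s = 8 * (N * ε * s) := by
      field_simp
      ring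
    rw [e1]
    norm_num at hB
    linarith

private theorem prj_norm {n N : ℕ} {M : Type} [TopologicalSpace M]
    (L : EE (n + 1) →ₗᵢ[ℝ] EE N) (c₀ : EE N) (F : M → ℝ → EE N) (t : ℝ) (q : M) :
    ‖prj L c₀ F t q‖ ≤ 1 := by
  unfold prj
  rw [norm_smul, norm_div, norm_one, norm_norm]
  by_cases h : ‖Pj L (F q t - c₀)‖ = 0
  · rw [h]
    simp
  · rw [one_div, inv_mul_cancel₀ h]

theorem hSTY (hPIE : StPIE) (hDRB : StDRB) (hLPG : StLPG) (hDIN : StDIN) : StSTY := by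
  intro n N hn M _ _ _ J F t l ε q₀ hS L δ hδ hδ1 hNε htl ξ hξ hξp s hs f hf hf0 hfK
  obtain ⟨hc1, hc2, hc3, hd⟩ := hDRB n N hn M J F t l ε q₀ hS L
  have hl := hS.l0
  have hε := hS.ε0
  have hF : IsImmJ (n := n) J F := hS.fl.toIsImmJ
  have hn0 : (0 : ℝ) < n := by
    have : 0 < n := by omega
    exact_mod_cast this
  have hN : (1 : ℝ) ≤ N := by
    have h1 : N ≠ 0 := by
      intro h0
      have h2 := hS.eq
      subst h0
      rw [Subsingleton.elim (HH (n := n) F q₀ t) 0, norm_zero] at h2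
      have h3 : 0 < (n : ℝ) * l := mul_pos hn0 hl
      linarith
    exact_mod_cast Nat.one_le_iff_ne_zero.2 h1
  obtain ⟨c₀, hc₀⟩ : ∃ c₀ : EE N, c₀ = cF n F q₀ t := ⟨_, rfl⟩
  rw [← hc₀] at hξp hfK ⊢
  have hfK1 : ∀ r ∈ Icc 0 s, f r ∈ K2 n F L c₀ t l δ := fun r hr => (hfK r hr).1
  have hk : ∀ r ∈ Icc 0 s, l ≤ 2 * kH n F (f r) t := by
    intro r hr
    have h1 : (1 - δ) * l ≤ kH n F (f r) t := (hfK1 r hr).1
    have h2 : δ * l ≤ 1 / 20 * l := mul_le_mul_of_nonneg_right hδ1 hl.le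
    linarith [show (1 - δ) * l = l - δ * l by ring]
  have hP2 : ∀ r ∈ Icc 0 s, DifferentiableAt ℝ
      (fun z => prj L c₀ F t ((chartAt (EE n) (f r)).symm z)) (chartAt (EE n) (f r) (f r)) :=
    fun r hr => (hPIE n N hn M J F t l ε q₀ hS L c₀ δ hδ hδ1 (f r) (hfK1 r hr)).2.2.2.2.1
  have hP3 : ∀ r ∈ Icc 0 s, ∀ h, l / 2 * ‖cd n (fun p => F p t) (f r) h‖ ≤
      ‖cd n (prj L c₀ F t) (f r) h‖ :=
    fun r hr => (hPIE n N hn M J F t l ε q₀ hS L c₀ δ hδ hδ1 (f r) (hfK1 r hr)).2.2.2.2.2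
  have hP4 : ∀ r ∈ Icc 0 s, ∀ r' ∈ Icc 0 s,
      ‖prj L c₀ F t (f r') - prj L c₀ F t (f r)‖ ≤ |r' - r| := by
    intro r hr r' hr'
    rw [(hfK r hr).2, (hfK r' hr').2]
    exact speed _ ξ (prj_norm L c₀ F t q₀) hξ hξp r' r
  have g1 := growth hLPG hDIN hF hS.tJ hl (fun p => kH n F p t) hc1 (prj L c₀ F t) (ε * l ^ 2)
    (by positivity) s hs.1 f hf (fun r hr => (hd (f r)).1) hP2
    (fun r hr h => ((hd (f r)).2.2.2 (hk r hr) h).1) hP3 hP4
  have g2 := growth hLPG hDIN hF hS.tJ hl (fun p => cF n F p t) hc2 (prj L c₀ F t) (4 * ε)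
    (by positivity) s hs.1 f hf (fun r hr => (hd (f r)).2.1) hP2
    (fun r hr h => ((hd (f r)).2.2.2 (hk r hr) h).2.1) hP3 hP4
  have g3 := growth hLPG hDIN hF hS.tJ hl (fun p => tlt n F L p t) hc3 (prj L c₀ F t)
    (4 * N * ε * l) (by positivity) s hs.1 f hf (fun r hr => (hd (f r)).2.2.1) hP2
    (fun r hr h => ((hd (f r)).2.2.2 (hk r hr) h).2.2) hP3 hP4
  obtain ⟨m1, m2, m3⟩ := numbers N ε l δ s hN hε hl hδ hδ1 hNε hs.2
  rw [hf0] at g1 g2 g3
  have hkq : kH n F q₀ t = l := by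
    unfold kH
    rw [hS.eq]
    field_simp
  have a1 : (1 - δ) * l < kH n F (f s) t := by
    have h1 : ‖kH n F (f s) t - kH n F q₀ t‖ < δ * l := g1.trans_lt m1
    rw [Real.norm_eq_abs, hkq] at h1
    have h2 := (abs_lt.1 h1).1
    linarith [show (1 - δ) * l = l - δ * l by ring]
  have a2 : ‖cF n F (f s) t - c₀‖ < δ / l := by
    rw [hc₀]
    exact g2.trans_lt m2
  have a3 : tlt n F L (f s) t < δ ^ 2 := by
    have h1 : ‖tlt n F L (f s) t - tlt n F L q₀ t‖ < δ ^ 2 := g3.trans_lt m3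
    rw [htl, sub_zero, Real.norm_eq_abs] at h1
    exact (abs_lt.1 h1).2
  have b2 : Continuous (fun q => ‖cF n F q t - c₀‖) := (hc2.sub continuous_const).norm
  filter_upwards [hc1.continuousAt.eventually (lt_mem_nhds a1),
    b2.continuousAt.eventually (gt_mem_nhds a2), hc3.continuousAt.eventually (gt_mem_nhds a3)]
    with q k1 k2 k3
  exact ⟨k1.le, k2.le, k3.le⟩

end Helper34.HC
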